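import Pool.Agent.Q198.CB6

set_option autoImplicit false

/-!
MP_e67678_an: a conditional basis indexed by a directed family of finite sets with a discontinuous
coefficient functional.
-/

namespace Pool.Agent.Results.MP_e67678_an.DiscontinuousCoefficient

open Pool.Agent.Q198.CB

theorem result : ∃ (I : Type) (𝒟 : Set (Finset I)) (E : Type) (_ : NormedAddCommGroup E)
    (_ : NormedSpace ℝ E) (x : I → E), CompleteSpace E ∧ (∀ i, ∃ d ∈ 𝒟, i ∈ d) ∧
    (∀ d ∈ 𝒟, ∀ d' ∈ 𝒟, ∃ d'' ∈ 𝒟, d ⊆ d'' ∧ d' ⊆ d'') ∧ (∀ v, ∃! a, SumTo 𝒟 x a v) ∧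
    ∃ (i : I) (f : E → ℝ), (∀ v a, SumTo 𝒟 x a v → f v = a i) ∧ ¬ Continuous f := by
  classical
  obtain ⟨J, ⟨P⟩⟩ := exists_data
  have hb : ∀ v : FF × L1 J, ∃! a, SumTo (Fam P) (xv P) a v := fun v => basis v
  choose a ha ha' using hb
  have i0 : KK := ((Classical.arbitrary Q0, Classical.arbitrary Q0), ⟨0, fun _ => 0⟩)
  have hf : ∀ (v : FF × L1 J) (b : KK ⊕ (J × ℕ) → ℝ), SumTo (Fam P) (xv P) b v →
      a v (Sum.inl i0) = b (Sum.inl i0) := fun v b hb => by rw [ha' v b hb]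
  refine ⟨KK ⊕ (J × ℕ), Fam P, FF × L1 J, inferInstance, inferInstance, xv P, inferInstance,
    fun i => ?_, fun d _ d' _ => ?_, fun v => basis v, Sum.inl i0, fun v => a v (Sum.inl i0), hf,
    disc i0 _ hf⟩
  · obtain ⟨d, hd, hd'⟩ := cofinal P {i}
    exact ⟨d, hd, hd' (Finset.mem_singleton_self i)⟩
  · obtain ⟨g, hg, hg'⟩ := cofinal P (d ∪ d')
    exact ⟨g, hg, Finset.subset_union_left.trans hg', Finset.subset_union_right.trans hg'⟩

end Pool.Agent.Results.MP_e67678_an.DiscontinuousCoefficient
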